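import Mathlib
import Pool.Agent.H21.SH.Main

/-!
# The spectral-profile time and the hitting times from the stationary law

For every finite reversible Markov chain the spectral-profile time is bounded by the `L^q(π)` norm
of the function `y ↦ E_π T_y`, for every `q > 1` and for `q = ∞`, where `E_π T_y` is the expected
hitting time of `y` from the stationary law.  For `q = 1` (the target time `∑_y π(y) E_π T_y`) this
is false; there is a bound with the factor `2 log (4 / π_*)`, which is an equality for all chains of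
independent samples with two states.
-/

set_option autoImplicit false
set_option linter.unusedSectionVars false

open Finset MeasureTheory
open scoped ENNReal

namespace Pool.Agent.Results.MP_cb142b_pr.StationaryHitting

noncomputable section

section Defs

variable {V : Type} [Fintype V] [DecidableEq V]

/-- `P` is the transition matrix of a Markov chain on the finite set `V` which is reversible with
respect to the positive probability vector `π`. -/
structure Reversible (P : V → V → ℝ) (π : V → ℝ) : Prop where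
  nonneg : ∀ x y, 0 ≤ P x y
  row : ∀ x, ∑ y, P x y = 1
  pos : ∀ x, 0 < π x
  total : ∑ x, π x = 1
  balance : ∀ x y, π x * P x y = π y * P y x

variable (P : V → V → ℝ) (π : V → ℝ)

/-- The Dirichlet form `E(h,h) = (1/2) ∑_{x,y} π(x) P(x,y) (h(x)-h(y))²`. -/
def energy (h : V → ℝ) : ℝ := (1 / 2) * ∑ x, ∑ y, π x * P x y * (h x - h y) ^ 2

/-- The variance of `h` under `π`. -/
def variance (h : V → ℝ) : ℝ := ∑ x, π x * (h x) ^ 2 - (∑ x, π x * h x) ^ 2

/-- `π(supp h)`. -/
def suppMass (h : V → ℝ) : ℝ := ∑ x, if h x ≠ 0 then π x else 0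

/-- The spectral profile `Λ(ε)`: the infimum of `E(h,h)` over the `h` with `Var h = 1` and
`π(supp h) ≤ ε`, and `∞` if there is no such `h`. -/
def profile (ε : ℝ) : ℝ≥0∞ :=
  ⨅ h : {h : V → ℝ // variance π h = 1 ∧ suppMass π h ≤ ε}, ENNReal.ofReal (energy P π h.1)

/-- `π_* = min_x π(x)`. -/
def piMin : ℝ := ⨅ x, π x

/-- The spectral-profile time `t_sp = ∫_{4π_*}^{16} 2 dδ / (δ Λ(δ))`. -/
def tsp : ℝ≥0∞ :=
  ∫⁻ δ in Set.Ioc (4 * piMin π) 16, 2 / (ENNReal.ofReal δ * profile P π δ)

/-- Probability that the jump chain started at `x` does not visit `y` at times `0, ..., n`. -/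
def avoid (y : V) : ℕ → V → ℝ
  | 0, x => if x = y then 0 else 1
  | n + 1, x => if x = y then 0 else ∑ z, P x z * avoid y n z

/-- `P_x(T_y > t)` for the continuous-time chain with jump rate `1`. -/
def surv (x y : V) (t : ℝ) : ℝ≥0∞ :=
  ∑' n : ℕ, ENNReal.ofReal (Real.exp (-t) * t ^ n / (n.factorial : ℝ) * avoid P y n x)

/-- The expected hitting time `E_x[T_y] = ∫_0^∞ P_x(T_y > t) dt`. -/
def hit (x y : V) : ℝ≥0∞ := ∫⁻ t in Set.Ioi (0 : ℝ), surv P x y t

/-- `t_hit = max_{x,y} E_x[T_y]`. -/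
def thit : ℝ≥0∞ := ⨆ x, ⨆ y, hit P x y

/-- The expected hitting time of `y` from the stationary law: `E_π T_y = ∑_x π(x) E_x T_y`. -/
def meanHit (y : V) : ℝ≥0∞ := ∑ x, ENNReal.ofReal (π x) * hit P x y

/-- The `L^q(π)` norm of `y ↦ E_π T_y`, that is `(∑_y π(y) (E_π T_y)^q)^(1/q)`. -/
def meanHitNorm (q : ℝ) : ℝ≥0∞ := (∑ y, ENNReal.ofReal (π y) * meanHit P π y ^ q) ^ q⁻¹

/-- The target time `∑_y π(y) E_π T_y`, the norm for `q = 1`. -/
def target : ℝ≥0∞ := ∑ y, ENNReal.ofReal (π y) * meanHit P π y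

/-- The greatest value of `∑_{y ∈ S} π(y) E_π T_y` over the sets `S` of states with
`π(S) ≤ δ`. -/
def smallSets (δ : ℝ) : ℝ≥0∞ :=
  ⨆ (S : Finset V) (_ : ∑ y ∈ S, π y ≤ δ), ∑ y ∈ S, ENNReal.ofReal (π y) * meanHit P π y

end Defs

section Graph

variable {V : Type} [Fintype V] [DecidableEq V] (G : SimpleGraph V) [DecidableRel G.Adj]

/-- Jump probabilities of simple random walk on `G`. -/
def srw (x y : V) : ℝ := if G.Adj x y then 1 / (G.degree x : ℝ) else 0

/-- The stationary law `π(x) = deg(x) / (2|E|)`. -/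
def stat (x : V) : ℝ := (G.degree x : ℝ) / (2 * (G.edgeFinset.card : ℝ))

end Graph

/-! ### Comparison with the definitions of the helper files -/

section Compare

open Pool.Agent.H21.SH

variable {V : Type} [Fintype V] [DecidableEq V] (P : V → V → ℝ) (π : V → ℝ)

theorem avoid_eq (y : V) (n : ℕ) (x : V) :
    avoid P y n x = Pool.Agent.Results.MP_cb142b_pr.SharpProfile.avoid P y n x := by
  induction n generalizing x with
  | zero => rfl
  | succ n ih =>
    rw [avoid, Pool.Agent.Results.MP_cb142b_pr.SharpProfile.avoid]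
    simp_rw [ih]

theorem hit_eq (x y : V) :
    hit P x y = Pool.Agent.Results.MP_cb142b_pr.SharpProfile.hit P x y := by
  unfold hit surv Pool.Agent.Results.MP_cb142b_pr.SharpProfile.hit
    Pool.Agent.Results.MP_cb142b_pr.SharpProfile.surv
  simp_rw [avoid_eq]

theorem thit_eq : thit P = Pool.Agent.Results.MP_cb142b_pr.SharpProfile.thit P := by
  unfold thit Pool.Agent.Results.MP_cb142b_pr.SharpProfile.thit
  simp_rw [hit_eq]

theorem meanHit_eq (y : V) : meanHit P π y = mh P π y := by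
  unfold meanHit mh
  simp_rw [hit_eq]

theorem meanHitNorm_eq (q : ℝ) : meanHitNorm P π q = mhN P π q := by
  unfold meanHitNorm mhN
  simp_rw [meanHit_eq]

theorem target_eq : target P π = tt P π := by
  unfold target tt
  simp_rw [meanHit_eq]

theorem smallSets_eq (δ : ℝ) : smallSets P π δ = sm P π δ := by
  unfold smallSets sm
  simp_rw [meanHit_eq]

theorem tsp_eq : tsp P π = Pool.Agent.Results.MP_cb142b_pr.SharpProfile.tsp P π := rfl

theorem rev {P : V → V → ℝ} {π : V → ℝ} (h : Reversible P π) :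
    Pool.Agent.Results.MP_cb142b_pr.SharpProfile.Reversible P π :=
  ⟨h.nonneg, h.row, h.pos, h.total, h.balance⟩

theorem rev' {P : V → V → ℝ} {π : V → ℝ}
    (h : Pool.Agent.Results.MP_cb142b_pr.SharpProfile.Reversible P π) : Reversible P π :=
  ⟨h.nonneg, h.row, h.pos, h.total, h.balance⟩

end Compare

/-- **The spectral-profile time and the hitting times from stationarity.**

(1) For every finite reversible chain: `t_sp ≤ C_q ‖E_π T‖_{L^q(π)}` for every `q > 1`, with
`C_q = 4 (1/2)^(1-1/q) / (1-1/q) + 10 log 2`; `t_sp ≤ 12 log 2 max_y E_π T_y ≤ 12 log 2 t_hit`;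
`t_sp ≤ ∫_0^{1/2} 2 A(δ) / (δ (1-δ)) dδ + 10 log 2 ∑_y π(y) E_π T_y`, where `A(δ)` is the greatest
value of `∑_{y ∈ S} π(y) E_π T_y` over the sets with `π(S) ≤ δ`; `1/Λ(δ) ≤ ∑_y π(y) E_π T_y`; if the
hitting times are finite then `1/Λ(δ) ≤ A(δ) / (1-δ)` for `δ < 1`; and
`t_sp ≤ 2 log(4/π_*) ∑_y π(y) E_π T_y`.

(2) For every `a` with `0 < a ≤ 1/2` there is a reversible chain with two states, finite hitting
times and `π_* = a` for which there is equality in the last inequality, with target time `1`.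
So for `q = 1` there is no constant; and for `1 < q ≤ 2` the constant `C_q` has to be at least
`1 / (2 (q - 1))`, already for chains with two states.

(3) For every finite connected graph the bounds of (1) hold for simple random walk; in particular
`t_sp(G) ≤ 12 log 2 t_hit(G)`.

(4) For vertex-transitive connected graphs, in particular for connected Cayley graphs,
`t_sp(G) ≤ 12 log 2 E_π T_y` for every vertex `y`. -/
theorem result :
    (∀ (V : Type) [Fintype V] [DecidableEq V] (P : V → V → ℝ) (π : V → ℝ), Reversible P π →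
      (∀ q : ℝ, 1 < q → tsp P π ≤
        ENNReal.ofReal (4 * (1 / 2) ^ (1 - q⁻¹) / (1 - q⁻¹) + 10 * Real.log 2) *
          meanHitNorm P π q) ∧
      tsp P π ≤ ENNReal.ofReal (12 * Real.log 2) * ⨆ y, meanHit P π y ∧
      (∀ y, meanHit P π y ≤ thit P) ∧
      tsp P π ≤ (∫⁻ δ in Set.Ioc (0 : ℝ) (1 / 2),
          ENNReal.ofReal (2 / (δ * (1 - δ))) * smallSets P π δ) +
        ENNReal.ofReal (10 * Real.log 2) * target P π ∧
      (∀ δ : ℝ, (profile P π δ)⁻¹ ≤ target P π) ∧
      (thit P ≠ ⊤ → ∀ δ : ℝ, δ < 1 →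
        (profile P π δ)⁻¹ ≤ ENNReal.ofReal (1 / (1 - δ)) * smallSets P π δ) ∧
      tsp P π ≤ ENNReal.ofReal (2 * Real.log (4 / piMin π)) * target P π) ∧
    (∀ a : ℝ, 0 < a → a ≤ 1 / 2 → ∃ (P : Bool → Bool → ℝ) (π : Bool → ℝ),
      Reversible P π ∧ thit P ≠ ⊤ ∧ piMin π = a ∧ target P π = 1 ∧
      tsp P π = ENNReal.ofReal (2 * Real.log (4 / a))) ∧
    (¬ ∃ C : ℝ, ∀ (V : Type) [Fintype V] [DecidableEq V] (P : V → V → ℝ) (π : V → ℝ),
      Reversible P π → tsp P π ≤ ENNReal.ofReal C * target P π) ∧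
    (∀ q : ℝ, 1 < q → q ≤ 2 → ∃ (P : Bool → Bool → ℝ) (π : Bool → ℝ),
      Reversible P π ∧ thit P ≠ ⊤ ∧ 1 ≤ meanHitNorm P π q ∧
      ENNReal.ofReal (1 / (2 * (q - 1))) * meanHitNorm P π q ≤ tsp P π) ∧
    (∀ (V : Type) [Fintype V] [DecidableEq V] (G : SimpleGraph V) [DecidableRel G.Adj],
      G.Connected →
      (∀ q : ℝ, 1 < q → tsp (srw G) (stat G) ≤
        ENNReal.ofReal (4 * (1 / 2) ^ (1 - q⁻¹) / (1 - q⁻¹) + 10 * Real.log 2) *
          meanHitNorm (srw G) (stat G) q) ∧
      tsp (srw G) (stat G) ≤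
        ENNReal.ofReal (12 * Real.log 2) * ⨆ y, meanHit (srw G) (stat G) y ∧
      (∀ y, meanHit (srw G) (stat G) y ≤ thit (srw G)) ∧
      tsp (srw G) (stat G) ≤ ENNReal.ofReal (12 * Real.log 2) * thit (srw G) ∧
      ((∀ x y : V, ∃ φ : G ≃g G, φ x = y) → ∀ y, tsp (srw G) (stat G) ≤
        ENNReal.ofReal (12 * Real.log 2) * meanHit (srw G) (stat G) y)) ∧
    (∀ (H : Type) [Group H] [Fintype H] [DecidableEq H] (G : SimpleGraph H) [DecidableRel G.Adj],
      G.Connected → (∀ a b c : H, G.Adj (c * a) (c * b) ↔ G.Adj a b) → ∀ y,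
      tsp (srw G) (stat G) ≤ ENNReal.ofReal (12 * Real.log 2) * meanHit (srw G) (stat G) y) := by
  refine ⟨?_, ?_, ?_, ?_, ?_, ?_⟩
  · intro V _ _ P π hR
    have h := rev hR
    refine ⟨fun q hq => ?_, ?_, fun y => ?_, ?_, fun δ => ?_, fun hT δ hδ => ?_, ?_⟩
    · rw [meanHitNorm_eq]
      exact Pool.Agent.H21.SH.tsp_norm h q hq
    · simp_rw [meanHit_eq]
      exact Pool.Agent.H21.SH.tsp_sup h
    · rw [meanHit_eq, thit_eq]
      exact Pool.Agent.H21.SH.mh_le_thit h y
    · simp_rw [smallSets_eq, target_eq]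
      exact Pool.Agent.H21.SH.tsp_master h
    · rw [target_eq]
      exact Pool.Agent.H21.SH.prof_tt h δ
    · rw [thit_eq] at hT
      rw [smallSets_eq]
      exact Pool.Agent.H21.SH.prof_sup h hT δ hδ
    · rw [target_eq]
      exact Pool.Agent.H21.SH.tsp_target h
  · intro a h0 h1
    obtain ⟨hR, hT, hm, ht, hs⟩ := Pool.Agent.H21.SH.two_state a h0 h1
    exact ⟨_, _, rev' hR, by rw [thit_eq]; exact hT, hm, by rw [target_eq]; exact ht, hs⟩
  · rintro ⟨C, hC⟩
    refine Pool.Agent.H21.SH.no_constant ⟨C, fun V _ _ P π hR => ?_⟩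
    have := hC V P π (rev' hR)
    rw [target_eq] at this
    exact this
  · intro q hq hq2
    obtain ⟨a, h0, h1, hN, hs⟩ := Pool.Agent.H21.SH.norm_order q hq hq2
    obtain ⟨hR, hT, -, -, -⟩ := Pool.Agent.H21.SH.two_state a h0 h1
    refine ⟨_, _, rev' hR, by rw [thit_eq]; exact hT, ?_, ?_⟩
    · rw [meanHitNorm_eq]
      exact hN
    · rw [meanHitNorm_eq]
      exact hs
  · intro V _ _ G _ hG
    refine ⟨fun q hq => ?_, ?_, fun y => ?_, ?_, fun ht y => ?_⟩
    · rw [meanHitNorm_eq]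
      exact Pool.Agent.H21.SH.graph_norm G hG q hq
    · simp_rw [meanHit_eq]
      exact Pool.Agent.H21.SH.graph_sup G hG
    · rw [meanHit_eq, thit_eq]
      exact Pool.Agent.H21.SH.graph_mh_le G hG y
    · rw [thit_eq]
      exact (Pool.Agent.H21.SH.graph_sup G hG).trans
        (mul_le_mul_right (iSup_le fun y => Pool.Agent.H21.SH.graph_mh_le G hG y) _)
    · rw [meanHit_eq]
      exact Pool.Agent.H21.SH.graph_transitive G hG ht y
  · intro H _ _ _ G _ hG hc y
    rw [meanHit_eq]
    exact Pool.Agent.H21.SH.graph_cayley G hG hc y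

end

end Pool.Agent.Results.MP_cb142b_pr.StationaryHitting
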